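import Pool.Agent.J6H54.CH.Stm

/-!
# CH-29: the coefficients of the conjugacy growth series in terms of the model (adapted from
`Pool/Agent/J6H22/CG/M28.lean`)
-/

set_option autoImplicit false
set_option maxHeartbeats 400000

namespace Pool.Agent.J6H82.CH29

open Finset
open Pool.Agent.J6H54.CH

variable {Λ : Type} [AddCommGroup Λ]

/-- labels of the points: `x` for `(x, 0)`, `(m, x)` for `(x, m)` and for its inverse -/
abbrev Lab (Λ : Type) : Type := Λ ⊕ ((Σ _ : ℕ, Λ) ⊕ (Σ _ : ℕ, Λ))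

/-- the point of a label -/
def pt (σ : Λ ≃ₗ[ℤ] Λ) : Lab Λ → Λ × ℤ
  | Sum.inl x => (x, 0)
  | Sum.inr (Sum.inl a) => (a.2, (a.1 : ℤ))
  | Sum.inr (Sum.inr a) => inv σ (a.2, (a.1 : ℤ))

/-- the length of a label -/
noncomputable def wt (σ : Λ ≃ₗ[ℤ] Λ) (T : Finset (Λ × ℤ)) : Lab Λ → ℕ
  | Sum.inl x => clen σ T (x, 0)
  | Sum.inr (Sum.inl a) => clen σ T (a.2, (a.1 : ℤ))
  | Sum.inr (Sum.inr a) => clen σ T (a.2, (a.1 : ℤ))

/-- admissible labels -/
def ok : Lab Λ → Prop
  | Sum.inl _ => True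
  | Sum.inr (Sum.inl a) => 1 ≤ a.1
  | Sum.inr (Sum.inr a) => 1 ≤ a.1

/-- the exponent of a label -/
def ex : Lab Λ → ℕ
  | Sum.inl _ => 0
  | Sum.inr (Sum.inl a) => a.1
  | Sum.inr (Sum.inr a) => a.1

/-- every point is the point of an admissible label -/
theorem exists_label (h16 : S_cj) {σ : Λ ≃ₗ[ℤ] Λ} {T : Finset (Λ × ℤ)} (hT : Gen σ T)
    (p : Λ × ℤ) : ∃ l : Lab Λ, ok l ∧ pt σ l = p ∧ clen σ T p = wt σ T l := by
  obtain ⟨_, _, _, _, _, _, _, c8, _⟩ := h16 Λ σ T hT
  obtain ⟨x, n⟩ := p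
  rcases lt_trichotomy n 0 with h | h | h
  · obtain ⟨m, hm⟩ : ∃ m : ℕ, -n = m := ⟨(-n).toNat, (Int.toNat_of_nonneg (by omega)).symm⟩
    have h1 : 1 ≤ m := by omega
    have h2 : ((inv σ (x, n)).1, (m : ℤ)) = inv σ (x, n) := Prod.ext rfl hm.symm
    refine ⟨Sum.inr (Sum.inr ⟨m, (inv σ (x, n)).1⟩), h1, ?_, ?_⟩
    · change inv σ ((inv σ (x, n)).1, (m : ℤ)) = (x, n)
      rw [h2, inv_inv']
    · change clen σ T (x, n) = clen σ T ((inv σ (x, n)).1, (m : ℤ))
      rw [h2, c8]
  · subst h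
    exact ⟨Sum.inl x, trivial, rfl, rfl⟩
  · obtain ⟨m, hm⟩ : ∃ m : ℕ, n = m := ⟨n.toNat, (Int.toNat_of_nonneg (by omega)).symm⟩
    subst hm
    have h1 : 1 ≤ m := by omega
    exact ⟨Sum.inr (Sum.inl ⟨m, x⟩), h1, rfl, rfl⟩

/-- CH-29 -/
theorem m29 (h16 : S_cj) : S_count := by
  classical
  intro Λ _ σ G _ f S T hM hT hfin hcs hcj
  obtain ⟨c1, _, _, c4, c5, c6, _, c8, _⟩ := h16 Λ σ T hT
  -- representatives
  choose rep hrep using fun c : ConjClasses G => ConjClasses.exists_rep c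
  have hcl : ∀ (c : ConjClasses G) (n : ℕ), c ∈ cset S n ↔ clen σ T (f (rep c)) = n := by
    intro c n
    rw [← hcs (rep c) n]
    have : ConjClasses.mk (rep c) = c := hrep c
    rw [this]
  have heq : ∀ c c' : ConjClasses G, Cj σ (f (rep c)) (f (rep c')) → c = c' := by
    intro c c' h
    have h3 := (hcj _ _).2 h
    have h4 : ConjClasses.mk (rep c) = c := hrep c
    have h5 : ConjClasses.mk (rep c') = c' := hrep c'
    rw [h4, h5] at h3
    exact h3
  -- the finite sets of the classes of length less than `N`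
  let U : ℕ → Finset (ConjClasses G) := fun N => (range N).biUnion fun n => (hfin n).toFinset
  have hU : ∀ (N : ℕ) (c : ConjClasses G), c ∈ U N ↔ clen σ T (f (rep c)) < N := by
    intro N c
    simp only [U, Finset.mem_biUnion, Finset.mem_range, Set.Finite.mem_toFinset]
    constructor
    · rintro ⟨n, hn, hc⟩
      rw [(hcl c n).1 hc]
      exact hn
    · intro h
      exact ⟨_, h, (hcl c _).2 rfl⟩
  have hsum : ∀ (N : ℕ) (z : ℝ), ∑ n ∈ range N, ((cset S n).ncard : ℝ) * z ^ n =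
      ∑ c ∈ U N, z ^ clen σ T (f (rep c)) := by
    intro N z
    have hd : ((range N : Finset ℕ) : Set ℕ).PairwiseDisjoint fun n => (hfin n).toFinset := by
      intro m _ n _ hmn
      rw [Function.onFun, Finset.disjoint_left]
      intro c hc hc'
      rw [Set.Finite.mem_toFinset] at hc hc'
      exact hmn (((hcl c m).1 hc).symm.trans ((hcl c n).1 hc'))
    simp only [U]
    rw [Finset.sum_biUnion hd]
    apply Finset.sum_congr rfl
    intro n _
    have h1 : ∑ c ∈ (hfin n).toFinset, z ^ clen σ T (f (rep c)) =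
        ∑ c ∈ (hfin n).toFinset, z ^ n := by
      apply Finset.sum_congr rfl
      intro c hc
      rw [Set.Finite.mem_toFinset] at hc
      rw [(hcl c n).1 hc]
    rw [h1, Finset.sum_const, nsmul_eq_mul, Set.ncard_eq_toFinset_card (cset S n) (hfin n)]
  refine ⟨fun N => ?_, fun N' X hX => ?_⟩
  · -- labels
    choose lab lab1 lab2 lab3 using fun c : ConjClasses G => exists_label h16 hT (f (rep c))
    have hinj : Function.Injective lab := by
      intro c c' h
      apply heq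
      rw [← lab2 c, ← lab2 c', h]
      exact c1 _
    let I : Finset (Lab Λ) := (U N).image lab
    have hI : ∀ l ∈ I, ∃ c, lab c = l := by
      intro l hl
      obtain ⟨c, _, h⟩ := Finset.mem_image.1 hl
      exact ⟨c, h⟩
    have hok : ∀ l ∈ I, ok l := by
      intro l hl
      obtain ⟨c, rfl⟩ := hI l hl
      exact lab1 c
    have huniq : ∀ l ∈ I, ∀ l' ∈ I, Cj σ (pt σ l) (pt σ l') → l = l' := by
      intro l hl l' hl' h
      obtain ⟨c, rfl⟩ := hI l hl
      obtain ⟨c', rfl⟩ := hI l' hl'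
      rw [lab2, lab2] at h
      rw [heq c c' h]
    let X : ℕ → Finset Λ := fun m => (I.toRight.toLeft.filter fun a => a.1 = m).image fun a => a.2
    let X' : ℕ → Finset Λ := fun m =>
      (I.toRight.toRight.filter fun a => a.1 = m).image fun a => a.2
    have hX : ∀ m x, x ∈ X m ↔ (Sum.inr (Sum.inl ⟨m, x⟩) : Lab Λ) ∈ I := by
      intro m x
      simp only [X, Finset.mem_image, Finset.mem_filter, Finset.mem_toLeft, Finset.mem_toRight]
      constructor
      · rintro ⟨⟨a, b⟩, ⟨h1, h2⟩, h3⟩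
        simp only at h2 h3
        subst h2
        subst h3
        exact h1
      · intro h
        exact ⟨⟨m, x⟩, ⟨h, rfl⟩, rfl⟩
    have hX' : ∀ m x, x ∈ X' m ↔ (Sum.inr (Sum.inr ⟨m, x⟩) : Lab Λ) ∈ I := by
      intro m x
      simp only [X', Finset.mem_image, Finset.mem_filter, Finset.mem_toRight]
      constructor
      · rintro ⟨⟨a, b⟩, ⟨h1, h2⟩, h3⟩
        simp only at h2 h3
        subst h2
        subst h3
        exact h1
      · intro h
        exact ⟨⟨m, x⟩, ⟨h, rfl⟩, rfl⟩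
    refine ⟨I.sup ex, I.toLeft, X, X', ?_, ?_, ?_, fun z hz => ?_⟩
    · intro x hx y hy h
      have h1 := huniq _ (Finset.mem_toLeft.1 hx) _ (Finset.mem_toLeft.1 hy) h
      exact Sum.inl_injective h1
    · intro m _ x hx y hy h
      have h1 := huniq _ ((hX m x).1 hx) _ ((hX m y).1 hy) h
      have h2 := Sum.inl_injective (Sum.inr_injective h1)
      simpa using h2
    · intro m _ x hx y hy h
      have h1 := huniq _ ((hX' m x).1 hx) _ ((hX' m y).1 hy) (c5 _ _ h)
      have h2 := Sum.inr_injective (Sum.inr_injective h1)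
      simpa using h2
    · let P : Finset (Σ _ : ℕ, Λ) := (Icc 1 (I.sup ex)).sigma X
      let P' : Finset (Σ _ : ℕ, Λ) := (Icc 1 (I.sup ex)).sigma X'
      have hsub : I ⊆ I.toLeft.disjSum (P.disjSum P') := by
        intro l hl
        have h1 := hok l hl
        have h2 : ex l ≤ I.sup ex := Finset.le_sup hl
        rcases l with x | a | a
        · exact Finset.inl_mem_disjSum.2 (Finset.mem_toLeft.2 hl)
        · apply Finset.inr_mem_disjSum.2
          apply Finset.inl_mem_disjSum.2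
          exact Finset.mem_sigma.2 ⟨Finset.mem_Icc.2 ⟨h1, h2⟩, (hX a.1 a.2).2 hl⟩
        · apply Finset.inr_mem_disjSum.2
          apply Finset.inr_mem_disjSum.2
          exact Finset.mem_sigma.2 ⟨Finset.mem_Icc.2 ⟨h1, h2⟩, (hX' a.1 a.2).2 hl⟩
      have hF : ∑ m ∈ Icc 1 (I.sup ex), ∑ x ∈ X m, z ^ clen σ T (x, (m : ℤ)) =
          ∑ a ∈ P, z ^ clen σ T (a.2, (a.1 : ℤ)) := by
        rw [Finset.sum_sigma]
      have hF' : ∑ m ∈ Icc 1 (I.sup ex), ∑ x ∈ X' m, z ^ clen σ T (x, (m : ℤ)) =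
          ∑ a ∈ P', z ^ clen σ T (a.2, (a.1 : ℤ)) := by
        rw [Finset.sum_sigma]
      rw [hsum, hF, hF']
      calc ∑ c ∈ U N, z ^ clen σ T (f (rep c)) = ∑ c ∈ U N, z ^ wt σ T (lab c) := by
            apply Finset.sum_congr rfl
            intro c _
            rw [lab3 c]
        _ = ∑ l ∈ I, z ^ wt σ T l := by
            rw [Finset.sum_image (fun c _ c' _ h => hinj h)]
        _ ≤ ∑ l ∈ I.toLeft.disjSum (P.disjSum P'), z ^ wt σ T l :=
            Finset.sum_le_sum_of_subset_of_nonneg hsub fun _ _ _ => (pow_pos hz _).le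
        _ = _ := by
            rw [Finset.sum_disjSum, Finset.sum_disjSum]
            rfl
  · -- classes of the points `(x, m)`
    let P : Finset (Σ _ : ℕ, Λ) := (Icc 1 N').sigma X
    have hex : ∀ a : (Σ _ : ℕ, Λ), ∃ g : G, f g = (a.2, (a.1 : ℤ)) := fun a =>
      hM.bij.2 (a.2, (a.1 : ℤ))
    choose gg hgg using hex
    let cc : (Σ _ : ℕ, Λ) → ConjClasses G := fun a => ConjClasses.mk (gg a)
    have hcc : ∀ a, clen σ T (f (rep (cc a))) = clen σ T (a.2, (a.1 : ℤ)) := by
      intro a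
      have h1 : ConjClasses.mk (rep (cc a)) = ConjClasses.mk (gg a) := hrep (cc a)
      rw [c6 _ _ ((hcj _ _).1 h1), hgg a]
    have hinj : ∀ a ∈ P, ∀ b ∈ P, cc a = cc b → a = b := by
      intro a ha b hb h
      have h1 := (hcj _ _).1 h
      rw [hgg a, hgg b] at h1
      have h2 := c4 _ _ h1
      obtain ⟨m, r⟩ := a
      obtain ⟨m', r'⟩ := b
      simp only [Nat.cast_inj] at h1 h2
      subst h2
      have ha' := Finset.mem_sigma.1 ha
      have hb' := Finset.mem_sigma.1 hb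
      have h3 := hX m (Finset.mem_Icc.1 ha'.1).1 r ha'.2 r' hb'.2 h1
      rw [h3]
    refine ⟨(P.sup fun a => clen σ T (a.2, (a.1 : ℤ))) + 1, fun z hz => ?_⟩
    have hF : ∑ m ∈ Icc 1 N', ∑ x ∈ X m, z ^ clen σ T (x, (m : ℤ)) =
        ∑ a ∈ P, z ^ clen σ T (a.2, (a.1 : ℤ)) := by
      rw [Finset.sum_sigma]
    rw [hsum, hF]
    calc ∑ a ∈ P, z ^ clen σ T (a.2, (a.1 : ℤ))
        = ∑ a ∈ P, z ^ clen σ T (f (rep (cc a))) := by
          apply Finset.sum_congr rfl
          intro a _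
          rw [hcc a]
      _ = ∑ c ∈ P.image cc, z ^ clen σ T (f (rep c)) := by
          rw [Finset.sum_image hinj]
      _ ≤ _ := by
          apply Finset.sum_le_sum_of_subset_of_nonneg
          · intro c hc
            obtain ⟨a, ha, rfl⟩ := Finset.mem_image.1 hc
            rw [hU, hcc a]
            exact Nat.lt_succ_of_le
              (Finset.le_sup (f := fun a : (Σ _ : ℕ, Λ) => clen σ T (a.2, (a.1 : ℤ))) ha)
          · intro _ _ _
            exact (pow_pos hz _).le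

end Pool.Agent.J6H82.CH29
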